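import Pool.Agent.BEW.StmtsS

/-!
# Squad BEW (MP_be01ff_an), row DAT: the data of the thin shell
-/

set_option autoImplicit false

namespace Pool.Agent.BEW.H43

open Set Filter Topology MeasureTheory
open scoped InnerProductSpace ENNReal NNReal
open Pool.Agent.BE01 Pool.Agent.BEL Pool.Agent.BEG Pool.Agent.BEH Pool.Agent.BER Pool.Agent.BEW

noncomputable section

theorem cd_ne (d : ℕ) (hd : 2 ≤ d) (h3 : d ≠ 3) : cd d ≠ 0 := by
  unfold cd
  have h1 : ((d : ℝ) - 1) ≠ 0 := by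
    have : (2 : ℝ) ≤ d := by exact_mod_cast hd
    intro h
    linarith
  have h2 : ((d : ℝ) - 3) ≠ 0 := by
    intro h
    apply h3
    have : (d : ℝ) = 3 := by linarith
    exact_mod_cast this
  intro h
  have h4 : ((d : ℝ) - 1) * (d - 3) = 0 := by linarith
  rcases mul_eq_zero.mp h4 with h | h
  · exact h1 h
  · exact h2 h

/-- The arithmetic. -/
theorem ari (a mu κ : ℝ) (ha : 0 < a) (hmu : 0 < mu) (hκ : 0 < κ) :
    ∃ β2 : ℝ, 1 ≤ β2 ∧ ∀ β : ℝ, β2 ≤ β →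
      0 ≤ 8 * a / β ^ 3 ∧ 8 * a / β ^ 3 ≤ 1 / 8 ∧ 5 * (8 * a / β ^ 3) ≤ mu ∧ a / β ^ 2 ≤ κ ∧
        2 * (8 * a / β ^ 3) ≤ κ * (a / β ^ 2) := by
  have p1 : 0 < 40 * a / mu := by positivity
  have p2 : 0 < a / κ := by positivity
  have p3 : 0 < 16 / κ := by positivity
  refine ⟨1 + 64 * a + 40 * a / mu + a / κ + 16 / κ, by linarith, ?_⟩
  intro β hβ
  have b1 : 1 ≤ β := by linarith
  have b0 : 0 < β := by linarith
  have q1 : 64 * a ≤ β := by linarith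
  have q2 : 40 * a / mu ≤ β := by linarith
  have q3 : a / κ ≤ β := by linarith
  have q4 : 16 / κ ≤ β := by linarith
  have r2 : 40 * a ≤ mu * β := by
    rw [div_le_iff₀ hmu] at q2
    linarith
  have r3 : a ≤ κ * β := by
    rw [div_le_iff₀ hκ] at q3
    linarith
  have r4 : 16 ≤ κ * β := by
    rw [div_le_iff₀ hκ] at q4
    linarith
  have s2 : β ≤ β ^ 2 := by nlinarith
  have s3 : β ^ 2 ≤ β ^ 3 := by
    have : β ^ 3 = β ^ 2 * β := by ring
    rw [this]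
    nlinarith [sq_nonneg β]
  have p5 : 0 < β ^ 3 := by positivity
  have p6 : 0 < β ^ 2 := by positivity
  refine ⟨by positivity, ?_, ?_, ?_, ?_⟩
  · rw [div_le_iff₀ p5]
    linarith
  · have : 5 * (8 * a / β ^ 3) = 40 * a / β ^ 3 := by ring
    rw [this, div_le_iff₀ p5]
    have h1 : mu * β ≤ mu * β ^ 3 := mul_le_mul_of_nonneg_left (le_trans s2 s3) hmu.le
    linarith
  · rw [div_le_iff₀ p6]
    have h1 : κ * β ≤ κ * β ^ 2 := mul_le_mul_of_nonneg_left s2 hκ.le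
    linarith
  · have h1 : 2 * (8 * a / β ^ 3) = 16 * (a / β ^ 3) := by ring
    have h2 : κ * (a / β ^ 2) = κ * β * (a / β ^ 3) := by
      field_simp
    rw [h1, h2]
    exact mul_le_mul_of_nonneg_right r4 (by positivity)

theorem dat (sbs : SbsStmt) (opb : OpbStmt) (ptb : PtbStmt) (rep : RepStmt) (nrb : NrbStmt) :
    DatStmt := by
  intro d ε1 J hd h3 hε1
  obtain ⟨κ, hκ0, hκ8, hκ⟩ := nrb J
  have hc := cd_ne d hd h3
  have ha : 0 < |cd d| := abs_pos.mpr hc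
  obtain ⟨β2, hβ2, hβ⟩ := ari |cd d| (min ε1 1) κ ha (lt_min hε1 one_pos) hκ0
  refine ⟨β2, hβ2, ?_⟩
  intro β hb
  obtain ⟨e0, e1, e2, e3, e4⟩ := hβ β hb
  have b1 : 1 ≤ β := le_trans hβ2 hb
  have b0 : 0 < β := lt_of_lt_of_le one_pos b1
  obtain ⟨s, hs⟩ := sbs d β hd b0
  obtain ⟨Bo, hBo, hsym, hnorm⟩ := opb d β hd b1
  obtain ⟨e, lam, hlam, hegn, hsum⟩ := ptb (Lp ℝ 2 (nu d β)) s Bo (cd d / β ^ 2)
    (8 * |cd d| / β ^ 3) e0 e1 hsym hnorm
  have e5 : 5 * (8 * |cd d| / β ^ 3) ≤ ε1 := le_trans e2 (min_le_left _ _)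
  have e6 : 5 * (8 * |cd d| / β ^ 3) ≤ 1 := le_trans e2 (min_le_right _ _)
  obtain ⟨bb, hmeas, hrep, hcls, hbdd⟩ := rep d β (5 * (8 * |cd d| / β ^ 3)) s e hd b0
    (by linarith) e6 hs hsum
  have hc0 : |cd d / β ^ 2| = |cd d| / β ^ 2 := by
    rw [abs_div, abs_of_pos (by positivity : (0 : ℝ) < β ^ 2)]
  obtain ⟨hfrq, δ, hnrs⟩ := hκ (cd d / β ^ 2) lam (div_ne_zero hc (by positivity))
    (by rw [hc0]; exact e3) (by
      intro k
      rw [hc0]
      exact le_trans (hlam k) e4)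
  exact ⟨δ, s, e, Bo, lam, bb,
    { sb := hs
      bo := hBo
      eg := hegn
      nrs := hnrs
      frq := hfrq
      meas := hmeas
      rep := hrep
      cls := fun k r hr => le_trans (hcls k r hr) e5
      bdd := hbdd }⟩

end

end Pool.Agent.BEW.H43
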